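import Mathlib
import Pool.Agent.RCM.WF

/-! Dade's conjecture, without any hypothesis on other groups, for all blocks of a finite group `X`
which cover a block with a nontrivial cyclic defect group of a component `K` of `X`, of a normal
subgroup `K` of `X`, or more generally of a subgroup `K` whose conjugates are contained in `K` or
commute with `K`, if `O_ℓ(K) = 1`. There is no hypothesis on the rest of `X`. -/

namespace Pool.Agent.Results.MP_3f89b9_al.CyclicBlockOfComponent

open Pool.Agent.Lib_helper13.Dade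

/-- Let `ℓ` be a prime, `X` a finite group and `K` a subgroup of `X` such that each conjugate of
`K` is contained in `K` or commutes with `K` elementwise (for example a normal subgroup or a
component of `X`), with `O_ℓ(K) = 1`. Let `ξ` be an irreducible character of `K` of positive
`ℓ`-defect such that the central character of `ξ` does not vanish modulo `𝔐` at the class of some
`x` for which all `ℓ`-subgroups of `C_K(x)` are cyclic (that is, the block of `ξ` has a nontrivial
cyclic defect group). Then, for every irreducible character `χ` of `X` over `ξ`, the alternating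
sums of Dade's conjecture for `X` and the block of `χ` are `0`. -/
theorem result (ℓ : ℕ) (hℓ : ℓ.Prime) (X : Type) [Group X] [Finite X] (K : Subgroup X)
    (hcomm : ∀ x : X, (∀ k ∈ K, x * k * x⁻¹ ∈ K) ∨
      ∀ k ∈ K, ∀ k' ∈ K, (x * k * x⁻¹) * k' = k' * (x * k * x⁻¹))
    (hcore : pCore ℓ K = ⊥)
    (𝔐 : Ideal (integralClosure ℤ ℂ)) (h𝔐 : 𝔐.IsMaximal)
    (hℓ𝔐 : (ℓ : integralClosure ℤ ℂ) ∈ 𝔐)
    (ξ : K → ℂ) (hξ : IsIrrChar ξ) (hd : ¬ HasDefect ℓ ξ 0)
    (x : K) (hx : ¬ CongrMod 𝔐 (central ξ x) 0)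
    (hx2 : ∀ Q : Subgroup K, IsPGroup ℓ Q → (∀ u ∈ Q, u * x = x * u) → IsCyclic Q)
    (χ : X → ℂ) (hχ : IsIrrChar χ) (hover : ∑ᶠ k : K, χ k * ξ k⁻¹ ≠ 0) (d : ℕ) :
    dadeSum 𝔐 ℓ χ d = 0 :=
  Pool.Agent.RCW.main ℓ hℓ X K hcomm hcore 𝔐 h𝔐 hℓ𝔐 ξ hξ hd x hx hx2 χ hχ hover d

end Pool.Agent.Results.MP_3f89b9_al.CyclicBlockOfComponent
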