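import Mathlib
import Pool.Agent.RCO.Loc

/-! Dade's conjecture for the finite groups `X` with a normal subgroup `G ^ Ω`, on which `X` induces
permutations and a cyclic group of outer automorphisms of arbitrary order: all alternating sums of
`X` in terms of the subgroups of `X / G ^ Ω`, without hypothesis if the nonabelian composition
factors of `G` have cyclic Sylow `ℓ`-subgroups, and minimal counterexamples. -/

namespace Pool.Agent.Results.MP_3f89b9_al.CyclicOuterReduction

open Pool.Agent.DPC hiding LocalDade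
open Pool.Agent.Lib_helper13.Dade Pool.Agent.RCO

/-- Dade's conjecture for `ℓ` holds for those groups `H` isomorphic to `C_T(E) / E`, where
`Inn(G) ≤ T ≤ A` and `E` is an `ℓ`-subgroup of `T` with `E ∩ Inn(G) = 1`, for which `O_ℓ(H) = 1` and
which have a nonabelian simple section with noncyclic Sylow `ℓ`-subgroups. -/
def LocalDade (ℓ : ℕ) {G : Type} [Group G] (A : Subgroup (MulAut G)) : Prop :=
  ∀ T : Subgroup (MulAut G), (MulAut.conj : G →* MulAut G).range ≤ T → T ≤ A →
    ∀ E : Subgroup (MulAut G), E ≤ T → IsPGroup ℓ E →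
    E ⊓ (MulAut.conj : G →* MulAut G).range = ⊥ →
    ∀ (H : Type) [Group H] [Finite H]
      (q : ↥(T ⊓ Subgroup.centralizer (E : Set (MulAut G))) →* H),
      Function.Surjective q → (∀ x, q x = 1 ↔ (x : MulAut G) ∈ E) → pCore ℓ H = ⊥ →
      ¬ CyclicSections ℓ H → DadeHolds ℓ H

section

variable {G X Ω : Type} [Group G] [Group X] [Fintype Ω]

/-- (1) If some `c i` has positive `ℓ`-defect, the alternating sums of the blocks of the characters
over the product of the `c i` are `0`. -/
def PositiveDefect (ℓ : ℕ) (e : (Ω → G) →* X) : Prop :=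
  ∀ c : Ω → G → ℂ, (∀ i, IsIrrChar (c i)) → (∃ i, ¬ HasDefect ℓ (c i) 0) →
    ∀ χ : X → ℂ, IsIrrChar χ → Over e χ c →
    ∀ 𝔐 : Ideal (integralClosure ℤ ℂ), 𝔐.IsMaximal → (ℓ : integralClosure ℤ ℂ) ∈ 𝔐 →
    ∀ d, dadeSum 𝔐 ℓ χ d = 0

/-- (2) If all `c i` have defect zero, `S` is the stabilizer of the product of the `c i` and `H` is
`S / G ^ Ω`, then the irreducible characters `η` of `H` correspond to the irreducible characters
`Θ η` of `X` over the product of the `c i`, and the alternating sums for `X` and the block of `Θ η`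
are those of `H` and the block of `η` if `|O_ℓ(H)| = |O_ℓ(X)|` and `0` otherwise. -/
def DefectZero (ℓ : ℕ) (e : (Ω → G) →* X) : Prop :=
  ∀ c : Ω → G → ℂ, (∀ i, IsIrrChar (c i) ∧ HasDefect ℓ (c i) 0) →
    ∀ S : Subgroup X, IsInertia e c S → ∀ (H : Type) [Group H] [Finite H] (q : S →* H),
    Function.Surjective q → (∀ x, q x = 1 ↔ (x : X) ∈ e.range) →
    ∃ Θ : (H → ℂ) → (X → ℂ),
      (∀ η, IsIrrChar η → IsIrrChar (Θ η) ∧ Over e (Θ η) c ∧
        Θ η 1 * Nat.card S = Nat.card X * (∏ i, c i 1) * η 1) ∧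
      (∀ η η', IsIrrChar η → IsIrrChar η' → Θ η = Θ η' → η = η') ∧
      (∀ χ, IsIrrChar χ → Over e χ c → ∃ η, IsIrrChar η ∧ Θ η = χ) ∧
      ∀ 𝔐 : Ideal (integralClosure ℤ ℂ), 𝔐.IsMaximal → (ℓ : integralClosure ℤ ℂ) ∈ 𝔐 →
        (∀ η η', IsIrrChar η → IsIrrChar η' →
          (SameBlock 𝔐 (Θ η) (Θ η') ↔ SameBlock 𝔐 η η')) ∧
        ∀ η, IsIrrChar η → ∀ d, dadeSum 𝔐 ℓ (Θ η) d =
          if Nat.card (pCore ℓ H) = Nat.card (pCore ℓ X) then dadeSum 𝔐 ℓ η d else 0

/-- (3) Dade's conjecture holds for `X` if and only if it holds for all the `H` of (2) with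
`|O_ℓ(H)| = |O_ℓ(X)|`. -/
def Equivalence (ℓ : ℕ) (e : (Ω → G) →* X) : Prop :=
  DadeHolds ℓ X ↔ ∀ c : Ω → G → ℂ, (∀ i, IsIrrChar (c i) ∧ HasDefect ℓ (c i) 0) →
    ∀ S : Subgroup X, IsInertia e c S → ∀ (H : Type) [Group H] [Finite H] (q : S →* H),
      Function.Surjective q → (∀ x, q x = 1 ↔ (x : X) ∈ e.range) →
      Nat.card (pCore ℓ H) = Nat.card (pCore ℓ X) → DadeHolds ℓ H

/-- (4) If `O_ℓ(X)` is central, Dade's conjecture holds for `X` if it holds for all those subgroups
`H` of `X / G ^ Ω` which have a nonabelian simple section with noncyclic Sylow `ℓ`-subgroups. -/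
def Inheritance (ℓ : ℕ) (e : (Ω → G) →* X) : Prop :=
  pCore ℓ X ≤ Subgroup.center X →
    (∀ (S : Subgroup X) (H : Type) [Group H] [Finite H] (q : S →* H),
      Function.Surjective q → (∀ x, q x = 1 ↔ (x : X) ∈ e.range) → e.range ≤ S →
      ¬ CyclicSections ℓ H → DadeHolds ℓ H) →
    DadeHolds ℓ X

end

/-- Dade's conjecture fails for `X` and holds for all smaller groups (with `O_ℓ` in the centre). -/
def LeastCounterexample (ℓ : ℕ) (X : Type) [Group X] : Prop :=
  pCore ℓ X ≤ Subgroup.center X ∧ ¬ DadeHolds ℓ X ∧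
    ∀ (Y : Type) [Group Y] [Finite Y], Nat.card Y < Nat.card X →
      pCore ℓ Y ≤ Subgroup.center Y → DadeHolds ℓ Y

/-- Let `ℓ` be a prime.

Part A. Let `G ≠ 1` be a finite group with `Z(G) = 1` and `O_ℓ(G) = 1`, let
`A = Inn(G)⟨a⟩ ≤ Aut(G)`, and suppose that the nonabelian simple sections of `G` have cyclic Sylow
`ℓ`-subgroups or that Dade's conjecture for `ℓ` holds for the groups `C_T(E) / E` of `LocalDade`.
Let `X` be a finite group with a normal subgroup `G ^ Ω` (embedded by `e`) on which every element of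
`X` acts as a permutation of the coordinates followed by elements of `A`. Then (1) - (4) hold.

Part B. Let `X` be a counterexample to Dade's conjecture of least order (with `O_ℓ(X) ≤ Z(X)`). If
`X` has a normal subgroup `S ^ Ω`, where `Ω` is not empty, `S` is simple and not abelian and
`Out(S)` is cyclic, then `|Ω| = 1` and this subgroup has trivial centralizer in `X`. -/
theorem result (ℓ : ℕ) (hℓ : ℓ.Prime) :
    (∀ (G : Type) [Group G] [Finite G] [Nontrivial G],
      Subgroup.center G = ⊥ → pCore ℓ G = ⊥ → ∀ (a : MulAut G) (A : Subgroup (MulAut G)),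
      A = (MulAut.conj : G →* MulAut G).range ⊔ Subgroup.zpowers a →
      (CyclicSections ℓ G ∨ LocalDade ℓ A) →
      ∀ (X Ω : Type) [Group X] [Finite X] [Fintype Ω] (e : (Ω → G) →* X), Coords e A →
        PositiveDefect ℓ e ∧ DefectZero ℓ e ∧ Equivalence ℓ e ∧ Inheritance ℓ e) ∧
    (∀ (X : Type) [Group X] [Finite X], LeastCounterexample ℓ X →
      ∀ (S Ω : Type) [Group S] [Finite S] [IsSimpleGroup S] [Finite Ω] [Nonempty Ω],
        (∃ x y : S, x * y ≠ y * x) →
        (∃ b : MulAut S, (MulAut.conj : S →* MulAut S).range ⊔ Subgroup.zpowers b = ⊤) →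
        ∀ e : (Ω → S) →* X, Function.Injective e → e.range.Normal →
          Nat.card Ω = 1 ∧ Subgroup.centralizer (e.range : Set X) = ⊥) := by
  refine ⟨?_, ?_⟩
  · intro G _ _ _ hcen hcore a A hA hD X Ω _ _ _ e he
    subst hA
    have hD' : Pool.Agent.DPC.LocalDade ℓ
        ((MulAut.conj : G →* MulAut G).range ⊔ Subgroup.zpowers a) := by
      rcases hD with hD | hD
      · exact local_of_sections ℓ hℓ a hD
      · intro T hT1 hT2 E hE1 hE2 hE3 H _ _ q hqs hq hH
        by_cases h5 : CyclicSections ℓ H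
        · exact dade_of_sections ℓ hℓ H h5 (by rw [hH]; exact bot_le)
        · exact hD T hT1 hT2 E hE1 hE2 hE3 H q hqs hq hH h5
    obtain ⟨h1, h2, h3, -⟩ := mainZ ℓ hℓ G hcen hcore a hD' X Ω e he
    refine ⟨h1, h2, h3, ?_⟩
    intro hXc h4
    rw [h3]
    intro c hc S hS H _ _ q hqs hq hcard
    have hle : e.range ≤ S := by
      rintro _ ⟨n, rfl⟩
      rw [hS]
      intro y y' hy
      have h7 : n * y * n⁻¹ = y' := he.1 (by rw [map_mul, map_mul, map_inv, hy])
      rw [← h7]
      refine Finset.prod_congr rfl fun i _ => ?_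
      exact (Pool.Agent.Lib_helper13.IsIrr.isChr (hc i).1).conj_eq (n i) (y i)
    by_cases h5 : CyclicSections ℓ H
    · refine dade_of_sections ℓ hℓ H h5 ?_
      refine core_central hℓ e.range ?_ S ?_ q hqs hq hXc hcard
      · rintro _ ⟨n, rfl⟩ hn
        have h6 : n = 1 := by
          funext i
          have h7 : n i ∈ Subgroup.center G := by
            rw [Subgroup.mem_center_iff]
            intro g
            have h8 := Subgroup.mem_center_iff.mp hn (e (Function.const Ω g))
            rw [← map_mul, ← map_mul] at h8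
            exact congrFun (he.1 h8) i
          rw [hcen, Subgroup.mem_bot] at h7
          exact h7
        rw [h6, map_one]
      · intro z hz
        rw [hS]
        intro y y' hy
        have h7 : y = y' := he.1 (by
          rw [← hy, ← Subgroup.mem_center_iff.mp hz (e y), mul_inv_cancel_right])
        rw [h7]
    · exact h4 S H q hqs hq hle h5
  · intro X _ _ hX S Ω _ _ _ _ _ hS hb e he hen
    obtain ⟨b, hb⟩ := hb
    exact minX ℓ hℓ X hX.1 hX.2.2 hX.2.1 S Ω hS b hb e he hen

end Pool.Agent.Results.MP_3f89b9_al.CyclicOuterReduction
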