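import Mathlib
import Pool.Agent.RCM.C75

/-! Dade's conjecture for a finite group follows from the vanishing of the alternating sums of
certain central extensions of almost simple groups, whose socle has noncyclic Sylow
`ℓ`-subgroups, for the blocks which cover blocks with noncyclic defect groups. -/

namespace Pool.Agent.Results.MP_3f89b9_al.NoncyclicSocleReduction

open Pool.Agent.Lib_helper13.Dade

/-- `S` is a nonabelian simple normal subgroup of `A` with trivial centralizer whose Sylow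
`ℓ`-subgroups are not cyclic, and `A / S` has a normal Sylow `ℓ`-subgroup `P / S` and a normal
subgroup `M / S` of order prime to `ℓ` such that `A / P` is nilpotent and generated by two
elements and `A / PM` is abelian. -/
def Critical (ℓ : ℕ) (A : Type) [Group A] (S : Subgroup A) : Prop :=
  S.Normal ∧ IsSimpleGroup S ∧ (∃ a ∈ S, ∃ b ∈ S, a * b ≠ b * a) ∧
    (∃ Q : Subgroup A, Q ≤ S ∧ IsPGroup ℓ Q ∧ ¬ IsCyclic Q) ∧
    Subgroup.centralizer (S : Set A) = ⊥ ∧
    ∃ (P M : Subgroup A) (_ : P.Normal), M.Normal ∧ S ≤ P ∧ S ≤ M ∧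
      (∀ x ∈ P, ∃ k : ℕ, x ^ ℓ ^ k ∈ S) ∧ ¬ ℓ ∣ P.index ∧ Group.IsNilpotent (A ⧸ P) ∧
      (∃ x y : A, Subgroup.closure {x, y} ⊔ P = ⊤) ∧ (∀ x ∈ M, x ^ ℓ ∈ S → x ∈ S) ∧
      ∀ x y : A, x * y * x⁻¹ * y⁻¹ ∈ P ⊔ M

/-- The defect groups of the block of `ξ` are not cyclic: the centralizer of every `x` at whose
class the central character of `ξ` does not vanish modulo `𝔐` has a noncyclic `ℓ`-subgroup. -/
def NoncyclicDefect {K : Type} [Group K] (𝔐 : Ideal (integralClosure ℤ ℂ)) (ℓ : ℕ)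
    (ξ : K → ℂ) : Prop :=
  ∀ x : K, ¬ CongrMod 𝔐 (central ξ x) 0 →
    ∃ Q : Subgroup K, IsPGroup ℓ Q ∧ (∀ u ∈ Q, u * x = x * u) ∧ ¬ IsCyclic Q

/-- The alternating sums of Dade's conjecture vanish for all the blocks of `Y` with defect groups
larger than `O_ℓ(Y)` which cover a block of the normal subgroup `K` whose defect groups are not
cyclic (if `O_ℓ(K) ≠ 1`: for all the blocks with defect groups larger than `O_ℓ(Y)`). -/
def HoldsOver (ℓ : ℕ) (Y : Type) [Group Y] (K : Subgroup Y) : Prop :=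
  ∀ 𝔐 : Ideal (integralClosure ℤ ℂ), 𝔐.IsMaximal → (ℓ : integralClosure ℤ ℂ) ∈ 𝔐 →
    ∀ χ : Y → ℂ, IsIrrChar χ →
      (∃ (χ' : Y → ℂ) (e : ℕ), IsIrrChar χ' ∧ SameBlock 𝔐 χ' χ ∧ HasDefect ℓ χ' e ∧
        Nat.card (pCore ℓ Y) < ℓ ^ e) →
      ∀ ξ : K → ℂ, IsIrrChar ξ → ∑ᶠ k : K, χ k * ξ k⁻¹ ≠ 0 →
      (pCore ℓ K = ⊥ → NoncyclicDefect 𝔐 ℓ ξ) → ∀ d : ℕ, dadeSum 𝔐 ℓ χ d = 0

/-- Let `ℓ` be a prime and `X` a finite group with `O_ℓ(X) ≤ Z(X)`. Suppose that
for all quotients `A` of subgroups of `X` and all subgroups `S` of `A` such that `(A, S)` is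
`Critical`, and all finite groups `Y` such that `Z(Y)` is cyclic, `O_ℓ(Y) ≤ Z(Y) ≤ [Y, Y]` and
`Y / Z(Y)` is isomorphic to `A`, the alternating sums of `Y` vanish for the blocks which cover a
block with noncyclic defect groups of `[N, N]`, where `N` is the inverse image of `S`
(`HoldsOver`). Then Dade's conjecture for `ℓ` holds for `X`. -/
theorem result (ℓ : ℕ) (hℓ : ℓ.Prime) (X : Type) [Group X] [Finite X]
    (hcore : pCore ℓ X ≤ Subgroup.center X)
    (hstem : ∀ (A : Type) [Group A] (S : Subgroup A), Critical ℓ A S →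
      (∃ (T : Subgroup X) (g : T →* A), Function.Surjective g) →
      ∀ (Y : Type) [Group Y] [Finite Y] (π : Y →* A), Function.Surjective π →
        π.ker = Subgroup.center Y → IsCyclic (Subgroup.center Y) →
        Subgroup.center Y ≤ commutator Y → pCore ℓ Y ≤ Subgroup.center Y →
        HoldsOver ℓ Y ⁅S.comap π, S.comap π⁆) :
    DadeHolds ℓ X :=
  Pool.Agent.RCB.mainT ℓ hℓ X hcore hstem

end Pool.Agent.Results.MP_3f89b9_al.NoncyclicSocleReduction
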