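import Pool.Agent.WGT.GWResR

/-! # MP_3f89b9_al: Dade's conjecture is equivalent to each of its generic linear consequences

Let `ℓ` be a prime. For `f : ℕ → ℂ` let `(f)` be the identity
`∑_σ (-1) ^ |σ| ∑_θ f(d(θ)) = 0`, where `σ` runs over the `G`-orbits of chains
`O_ℓ(G) < D_1 < ⋯ < D_n` of `ℓ`-subgroups of a finite group `G` and `θ` over the irreducible
characters of the stabilizer of `σ` with `bl(θ)^G = B`, for an `ℓ`-block `B` of `G` whose defect
groups properly contain `O_ℓ(G)`. For the function `f` with the value `1` at `d` and `0` elsewhere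
this is the identity in Dade's conjecture for `d`.
-/

namespace Pool.Agent.Results.MP_3f89b9_al.UniversalRelations

open Pool.Agent.WGT Pool.Agent.Lib_helper13 Pool.Agent.Lib_helper13.Dade

/-- Let `ℓ` be a prime and let `r ≥ 2` be prime to `ℓ`.
1. Let `𝒢` be a class of groups closed under quotients, finite direct products and wreath products
with groups of prime order, which contains the groups of order `ℓ` (for example the class of all
groups). The groups in the following statements are the finite groups `G` in `𝒢` with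
`O_ℓ(G) ≤ Z(G)`.
 * The following are equivalent: Dade's conjecture holds for all `G`; `(f)` holds for one function `f`
 which is not eventually quasi-polynomial; for one such `f` with integer values `(f)` holds up to an
 error `o(|G|)`; `(f)` holds for infinitely many linearly independent functions `f`; `(f)` holds for
 every `f`.
 * If `(f)` holds for one function `f` with infinite support, the identity with the weights `1` holds
 for all finite groups `G` in `𝒢` with `O_ℓ(G) = 1` (this is Alperin's weight conjecture in the form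
 of Knörr and Robinson); if `f` has integer values, it is enough that `(f)` holds up to an error
 `o(|G|)`.
 * If `k` is the last argument with `f(k) ≠ 0`, `(f)` holds if and only if the identities of Dade's
 conjecture hold for all `d ≤ k`.
 * Let `p ≠ ℓ` be a prime and let `f` with integer values be not eventually periodic modulo `p`. The
 sums `(f)` are divisible by `p` for all `G` if and only if all the sums of Dade's conjecture are; then
 Dade's conjecture holds for the finite groups `G` in `𝒢` with `O_ℓ(G) = 1`.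
2. `1 / d`, `log d`, `t ^ d`, for `t ≠ 0` not a root of unity, and the indicator function of the
squares are not eventually quasi-polynomial; the last one is not eventually periodic modulo `p`.
3. Dade's conjecture, `(f)` for one `f` which is not eventually quasi-polynomial, for infinitely many
linearly independent `f`, and for all `f`, are equivalent also for the finite groups `G` with
`O_ℓ(G) = 1` in any class of groups closed under finite direct products and wreath products with
groups of prime order.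
4. For every `f`, `(f)` holds for all `G` with `O_ℓ(G) = 1` if it holds for infinitely many of the
groups `M_m(ℤ/r) ⋊ S_m`.
5. Let `t > 1` be real. Dade's conjecture holds for all `G` with `O_ℓ(G) = 1` if, for all `ε > 0`, the
sums with the weights `t ^ d` have real part at most `C |G| ^ ε` for some `C`, or at most `exp (ε m)`
for infinitely many of the groups `M_m(ℤ/r) ⋊ S_m`. -/
theorem result (ℓ : ℕ) (hℓ : ℓ.Prime) (r : ℕ) (hr : 2 ≤ r) (hc : ℓ.Coprime r) :
    (∀ 𝒢 : (G : Type) → [Group G] → Prop, QuotClosed ℓ 𝒢 →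
      List.TFAE [
        DadeOnZ ℓ 𝒢,
        ∃ f, ¬ EvQuasiPoly f ∧ IsRelationZ ℓ 𝒢 f,
        ∃ f : ℕ → ℤ, ¬ EvQuasiPoly (fun d => (f d : ℂ)) ∧ IsApproxZ ℓ 𝒢 (fun d => (f d : ℂ)),
        ∃ F : ℕ → ℕ → ℂ, LinearIndependent ℂ F ∧ ∀ i, IsRelationZ ℓ 𝒢 (F i),
        ∀ f, IsRelationZ ℓ 𝒢 f] ∧
      (∀ f : ℕ → ℂ, (∀ N : ℕ, ∃ d ≥ N, f d ≠ 0) → IsRelationZ ℓ 𝒢 f →
        IsRelation ℓ 𝒢 (fun _ => 1)) ∧
      (∀ f : ℕ → ℤ, (∀ N : ℕ, ∃ d ≥ N, f d ≠ 0) → IsApproxZ ℓ 𝒢 (fun d => (f d : ℂ)) →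
        IsRelation ℓ 𝒢 (fun _ => 1)) ∧
      (∀ (f : ℕ → ℂ) (k : ℕ), f k ≠ 0 → (∀ d, k < d → f d = 0) →
        (IsRelationZ ℓ 𝒢 f ↔ ∀ d ≤ k, ∀ (G : Type) [Group G] [Finite G], 𝒢 G →
          pCore ℓ G ≤ Subgroup.center G → DadeHoldsAt ℓ G d)) ∧
      ∀ (p : ℕ) (f : ℕ → ℤ), p.Prime → p ≠ ℓ → ¬ EvPeriodicMod p f →
        (IsRelationModZ p ℓ 𝒢 f ↔ ∀ (G : Type) [Group G] [Finite G], 𝒢 G →
          pCore ℓ G ≤ Subgroup.center G → ForSums ℓ G (fun s => (p : ℤ) ∣ s)) ∧
        (IsRelationModZ p ℓ 𝒢 f → DadeOn ℓ 𝒢)) ∧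
    (¬ EvQuasiPoly (fun d => 1 / (d : ℂ)) ∧ ¬ EvQuasiPoly (fun d => ((Real.log d : ℝ) : ℂ)) ∧
      (∀ t : ℂ, t ≠ 0 → (∀ n : ℕ, 0 < n → t ^ n ≠ 1) → ¬ EvQuasiPoly (fun d => t ^ d)) ∧
      ¬ EvQuasiPoly (fun d => (GWResR.sqInd d : ℂ)) ∧ ∀ p : ℕ, 2 ≤ p → ¬ EvPeriodicMod p GWResR.sqInd) ∧
    (∀ 𝒢 : (G : Type) → [Group G] → Prop, ProdWreathClosed 𝒢 → List.TFAE [
      DadeOn ℓ 𝒢,
      ∃ f, ¬ EvQuasiPoly f ∧ IsRelation ℓ 𝒢 f,
      ∃ F : ℕ → ℕ → ℂ, LinearIndependent ℂ F ∧ ∀ i, IsRelation ℓ 𝒢 (F i),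
      ∀ f, IsRelation ℓ 𝒢 f]) ∧
    (∀ f : ℕ → ℂ, IsRelation ℓ (fun _ _ => True) f ↔
      ∀ N : ℕ, ∃ m ≥ N, ForWeights ℓ f (MatSym m r) (fun s => s = 0)) ∧
    ∀ t : ℝ, 1 < t → List.TFAE [
      DadeOn ℓ (fun _ _ => True),
      ∀ ε : ℝ, 0 < ε → ∃ C : ℝ, ∀ (G : Type) [Group G] [Finite G], pCore ℓ G = ⊥ →
        ForWeights ℓ (fun d => (t : ℂ) ^ d) G (fun s => s.re ≤ C * (Nat.card G : ℝ) ^ ε),
      ∀ ε : ℝ, 0 < ε → ∀ N : ℕ, ∃ m ≥ N,
        ForWeights ℓ (fun d => (t : ℂ) ^ d) (MatSym m r)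
          (fun s => s.re ≤ Real.exp (ε * m))] :=
  Pool.Agent.WGT.GWResR.result ℓ hℓ r hr hc

end Pool.Agent.Results.MP_3f89b9_al.UniversalRelations
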